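import Mathlib
import Pool.Agent.Lib.helper22.Plank

set_option autoImplicit false

namespace Pool.Agent.Results.MP_231ef3_gt.NotTietze

open H22T

theorem result : ¬ SetSelfTietze Plank := not_plank

end Pool.Agent.Results.MP_231ef3_gt.NotTietze
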